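import Pool.Agent.Lib.MP_095a31_lc.H85Fin

/-!
From an extendible cardinal, a countable transitive model of ZF with an extendible cardinal `d`
such that the Axiom of Choice fails in every set generic extension, in particular in the
extensions by `Col(ω, V_d)`.
-/

namespace Pool.Agent.Results.MP_095a31_lc.ChoiceFails

open Pool.Agent.Lib.MP_329f2d_lc Pool.Agent.Lib.MP_095a31_lc

theorem result (d₀ : V) (h : Extendible Set.univ d₀) :
    ∃ N d : V, (N : Set V).Countable ∧ ZFull N ∧ Card N d ∧ Extendible N d ∧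
      (∃ P ∈ N, IsCol N d P ∧ Po P) ∧
      ∀ P ∈ N, Po P → (∃ G, Generic N P G) ∧ ∀ G, Generic N P G → ¬ AC (Ext N G) := by
  obtain ⟨N, d, h1, h2, h3, h4⟩ := main h
  refine ⟨N, d, h1, h2, card_of_crit h2.1 h3.1 h3.2.1 fun l hl ho hd => ?_, h3, h4⟩
  obtain ⟨t, -, -, A, -, B, -, j, -, a1, a2, a3, a4⟩ := h3.2.2 l hl ho hd
  exact ⟨A, B, _, fun x hx y hy => (a2 y).2 ⟨h2.1.trans x ((a2 x).1 hx).1 y hy,
    (ZFSet.rank_lt_of_mem hy).trans ((a2 x).1 hx).2⟩, a1, a3.emb, a4⟩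

end Pool.Agent.Results.MP_095a31_lc.ChoiceFails
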