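import Pool.Agent.Lib.MP_095a31_lc.H7All

/-!
A countable transitive model `N` of ZF that extends a countable elementary copy `W` of the
universe, keeps all extendible cardinals of `W`, and such that for each of them Countable Choice
fails in the extensions of `N` by `Col(ω, V_d)`.
-/

namespace Pool.Agent.Results.MP_095a31_lc.CountableChoiceFails

open Pool.Agent.Lib.MP_329f2d_lc Pool.Agent.Lib.MP_095a31_lc

theorem result (x₀ : V) :
    ∃ (W N : V) (π : V → V), (N : Set V).Countable ∧ ZFull N ∧ W.IsTransitive ∧ W ⊆ N ∧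
      (∀ a ∈ N, a.IsOrdinal → a ∈ W) ∧
      (∀ (φ : Fml) (v : ℕ → V), (∀ i, v i ∈ W) →
        (Sat W ∅ φ v ↔ Sat Set.univ ∅ φ fun i => π (v i))) ∧
      (∃ x ∈ W, π x = x₀) ∧
      ∀ d ∈ W, Extendible Set.univ (π d) → Card N d ∧ Extendible N d ∧
        ∃ P ∈ N, IsCol N d P ∧ Po P ∧ (∃ G, Generic N P G) ∧
          ∀ G, Generic N P G → ¬ CC (Ext N G) :=
  main_all x₀

end Pool.Agent.Results.MP_095a31_lc.CountableChoiceFails
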